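import Mathlib

set_option autoImplicit false

namespace Pool.Agent.Results.MP_522cd8_co.WidthClassification

universe u

/-- The matrix `M` over `R`, for a matrix `M` of units of `R`. -/
def toMat {R : Type u} [Ring R] {v : ℕ} (M : Fin v → Fin v → Rˣ) : Matrix (Fin v) (Fin v) R :=
  Matrix.of fun i j => (M i j : R)

/-- The matrix `M^*` over `R`, with `(i, j)` entry the inverse of the `(j, i)` entry of `M`. -/
def starMat {R : Type u} [Ring R] {v : ℕ} (M : Fin v → Fin v → Rˣ) : Matrix (Fin v) (Fin v) R :=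
  Matrix.of fun i j => (((M j i)⁻¹ : Rˣ) : R)

/-- `M` is a `GBH(N, v)` matrix: `v ≥ 2`, `char R` does not divide `v`, the entries of `M` lie
in `N` and `M M^* = M^* M = v I`. -/
structure IsGBH {R : Type u} [Ring R] (N : Subgroup Rˣ) {v : ℕ} (M : Fin v → Fin v → Rˣ) :
    Prop where
  two_le : 2 ≤ v
  char_not_dvd : ¬ ringChar R ∣ v
  mem : ∀ i j, M i j ∈ N
  mul_star : toMat M * starMat M = (v : R) • (1 : Matrix (Fin v) (Fin v) R)
  star_mul : starMat M * toMat M = (v : R) • (1 : Matrix (Fin v) (Fin v) R)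

/-- The first row and the first column of `M` consist of ones. -/
def Normalised {R : Type u} [Ring R] {v : ℕ} (M : Fin v → Fin v → Rˣ) : Prop :=
  ∀ i j : Fin v, (i : ℕ) = 0 → M i j = 1 ∧ M j i = 1

/-- `M'` arises from `M` by permuting rows and permuting columns. -/
def PermEquiv {R : Type u} [Ring R] {v : ℕ} (M M' : Fin v → Fin v → Rˣ) : Prop :=
  ∃ σ τ : Equiv.Perm (Fin v), ∀ i j, M' i j = M (σ i) (τ j)

/-- The first `m` and the last `m` rows, and the first `m` and the last `m` columns, of `M` have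
all their entries in `{1, -1}`. -/
def Border {R : Type u} [Ring R] {v : ℕ} (m : ℕ) (M : Fin v → Fin v → Rˣ) : Prop :=
  ∀ i j : Fin v, ((i : ℕ) < m ∨ v - m ≤ (i : ℕ)) →
    (M i j = 1 ∨ M i j = -1) ∧ (M j i = 1 ∨ M j i = -1)

/-- `K` is permutation equivalent to a normalised matrix whose first `m` and last `m` rows and
columns have all their entries in `{1, -1}`. -/
def HasForm {R : Type u} [Ring R] {v : ℕ} (K : Fin v → Fin v → Rˣ) (m : ℕ) : Prop :=
  ∃ K' : Fin v → Fin v → Rˣ, PermEquiv K K' ∧ Normalised K' ∧ Border m K'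

/-- `K` is a jacket matrix of order `v` with entries in `N`. -/
def IsJacket {R : Type u} [Ring R] (N : Subgroup Rˣ) {v : ℕ} (K : Fin v → Fin v → Rˣ) : Prop :=
  IsGBH N K ∧ Normalised K ∧ HasForm K 1

/-- The jacket width of `K` is `w`. -/
def HasWidth {R : Type u} [Ring R] {v : ℕ} (K : Fin v → Fin v → Rˣ) (w : ℕ) : Prop :=
  1 ≤ w ∧ 2 * w ≤ v ∧ HasForm K w ∧ ∀ m, 2 * m ≤ v → HasForm K m → m ≤ w

/-- `K` is a primary jacket matrix with entries in `N`: it is a jacket matrix, and it is not
permutation equivalent to a Kronecker product of two jacket matrices. -/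
def IsPrimary {R : Type u} [Ring R] (N : Subgroup Rˣ) {v : ℕ} (K : Fin v → Fin v → Rˣ) : Prop :=
  IsJacket N K ∧ ¬ ∃ (a b : ℕ) (K₁ : Fin a → Fin a → Rˣ) (K₂ : Fin b → Fin b → Rˣ),
    IsJacket N K₁ ∧ IsJacket N K₂ ∧ ∃ σ τ : Fin v ≃ Fin a × Fin b,
      ∀ i j, K i j = K₁ (σ i).1 (τ j).1 * K₂ (σ i).2 (τ j).2

/-- `w` is admissible for `n`: `1 ≤ w ≤ n` if `n` is even, and `1 ≤ w ≤ n - 1` if `n` is odd. -/
def Admissible (n w : ℕ) : Prop := 1 ≤ w ∧ (Even n → w ≤ n) ∧ (Odd n → w + 1 ≤ n)

/-- Property (F): for infinitely many `n`, every width admissible for `n` is the jacket width of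
some primary jacket matrix of order `2 n` with entries in `N`. -/
def PropF (R : Type u) [Ring R] (N : Subgroup Rˣ) : Prop :=
  {n : ℕ | ∀ w, Admissible n w →
    ∃ K : Fin (2 * n) → Fin (2 * n) → Rˣ, IsPrimary N K ∧ HasWidth K w}.Infinite

section Basic

variable {R : Type u} [Ring R]

theorem row_orth {N : Subgroup Rˣ} {v : ℕ} {M : Fin v → Fin v → Rˣ} (h : IsGBH N M)
    (i j : Fin v) : ∑ k, (M i k : R) * (((M j k)⁻¹ : Rˣ) : R) = if i = j then (v : R) else 0 := by
  have := congrFun (congrFun h.mul_star i) j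
  simpa [Matrix.mul_apply, toMat, starMat, Matrix.one_apply] using this

theorem col_orth {N : Subgroup Rˣ} {v : ℕ} {M : Fin v → Fin v → Rˣ} (h : IsGBH N M)
    (i j : Fin v) : ∑ k, (((M k i)⁻¹ : Rˣ) : R) * (M k j : R) = if i = j then (v : R) else 0 := by
  have := congrFun (congrFun h.star_mul i) j
  simpa [Matrix.mul_apply, toMat, starMat, Matrix.one_apply] using this

theorem isGBH_of {N : Subgroup Rˣ} {v : ℕ} {M : Fin v → Fin v → Rˣ} (h1 : 2 ≤ v)
    (h2 : ¬ ringChar R ∣ v) (h3 : ∀ i j, M i j ∈ N)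
    (h4 : ∀ i j, ∑ k, (M i k : R) * (((M j k)⁻¹ : Rˣ) : R) = if i = j then (v : R) else 0)
    (h5 : ∀ i j, ∑ k, (((M k i)⁻¹ : Rˣ) : R) * (M k j : R) = if i = j then (v : R) else 0) :
    IsGBH N M := by
  refine ⟨h1, h2, h3, ?_, ?_⟩
  · ext i j
    simpa [Matrix.mul_apply, toMat, starMat, Matrix.one_apply] using h4 i j
  · ext i j
    simpa [Matrix.mul_apply, toMat, starMat, Matrix.one_apply] using h5 i j

theorem natCast_ne_zero {v : ℕ} (h : ¬ ringChar R ∣ v) : (v : R) ≠ 0 := by
  intro h'
  exact h ((ringChar.spec R v).1 h')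

/-- rows of a permuted matrix are orthogonal. -/
theorem perm_row_orth {N : Subgroup Rˣ} {v : ℕ} {M M' : Fin v → Fin v → Rˣ} (h : IsGBH N M)
    (hp : PermEquiv M M') (i j : Fin v) :
    ∑ k, (M' i k : R) * (((M' j k)⁻¹ : Rˣ) : R) = if i = j then (v : R) else 0 := by
  obtain ⟨σ, τ, hM⟩ := hp
  simp only [hM]
  rw [Equiv.sum_comp τ (fun k => (M (σ i) k : R) * (((M (σ j) k)⁻¹ : Rˣ) : R)), row_orth h]
  simp

end Basic


/-! ### the construction -/

section Construction

variable {R : Type u} [Ring R]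

/-- index type: `w' + 1` special indices, `r` blocks of size two, `w' + 1` special indices. -/
abbrev Idx (w' r : ℕ) : Type := Fin (w' + 1) ⊕ ((Fin r × Fin 2) ⊕ Fin (w' + 1))

/-- the all-ones index. -/
def z0 (w' r : ℕ) : Idx w' r := Sum.inl 0

/-- block matrix: blocks `[[c, d], [d, c]]` and single entries `e`. -/
def blk {S : Type u} [Zero S] {w' r : ℕ} (c d e : S) : Idx w' r → Idx w' r → S
  | Sum.inr (Sum.inl p), Sum.inr (Sum.inl q) =>
      if p.1 = q.1 then (if p.2 = q.2 then c else d) else 0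
  | Sum.inr (Sum.inl _), Sum.inl _ => 0
  | Sum.inr (Sum.inl _), Sum.inr (Sum.inr _) => 0
  | Sum.inl _, Sum.inr (Sum.inl _) => 0
  | Sum.inr (Sum.inr _), Sum.inr (Sum.inl _) => 0
  | Sum.inl u, Sum.inl v => if u = v then e else 0
  | Sum.inr (Sum.inr u), Sum.inr (Sum.inr v) => if u = v then e else 0
  | Sum.inl _, Sum.inr (Sum.inr _) => 0
  | Sum.inr (Sum.inr _), Sum.inl _ => 0

theorem sum_blk {w' r : ℕ} (c d e : R) (h : c + d = e) (x : Idx w' r) :
    ∑ k, blk c d e x k = e := by
  rcases x with u | p | u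
  · simp [Fintype.sum_sum_type, blk]
  · simp only [Fintype.sum_sum_type, blk, Fintype.sum_prod_type, Finset.sum_const_zero, zero_add,
      add_zero, Fin.sum_univ_two]
    obtain ⟨t, b⟩ := p
    have : ∀ x : Fin r, ((if t = x then if b = 0 then c else d else 0) +
        if t = x then if b = 1 then c else d else 0) = if t = x then e else 0 := by
      intro x
      by_cases hx : t = x
      · fin_cases b
        · simp [hx, h]
        · simp [hx, ← h, add_comm]
      · simp [hx]
    simp only [this, Finset.sum_ite_eq, Finset.mem_univ, if_true]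
  · simp [Fintype.sum_sum_type, blk]

theorem sum_blk_blk {w' r : ℕ} (c d c' d' e f : R) (h1 : c * c' + d * d' = f)
    (h2 : c * d' + d * c' = 0) (he : e * e = f) (x y : Idx w' r) :
    ∑ k, blk c d e x k * blk c' d' e y k = if x = y then f else 0 := by
  have h1' : d * d' + c * c' = f := by rw [add_comm]; exact h1
  have h2' : d * c' + c * d' = 0 := by rw [add_comm]; exact h2
  rcases x with u | ⟨t, b⟩ | u <;> rcases y with v | ⟨t', b'⟩ | v
  · by_cases huv : u = v
    · simp [Fintype.sum_sum_type, blk, huv, he]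
    · simp [Fintype.sum_sum_type, blk, huv]
  · simp [Fintype.sum_sum_type, blk]
  · simp [Fintype.sum_sum_type, blk]
  · simp [Fintype.sum_sum_type, blk]
  · simp only [Fintype.sum_sum_type, blk, Fintype.sum_prod_type, Finset.sum_const_zero, zero_add,
      add_zero, Fin.sum_univ_two, mul_zero]
    by_cases htt : t = t'
    · subst htt
      have : ∀ x : Fin r, ((if t = x then if b = 0 then c else d else 0) *
            (if t = x then if b' = 0 then c' else d' else 0) +
          (if t = x then if b = 1 then c else d else 0) *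
            (if t = x then if b' = 1 then c' else d' else 0)) =
          if t = x then (if b = b' then f else 0) else 0 := by
        intro x
        by_cases hx : t = x
        · fin_cases b <;> fin_cases b' <;> simp [hx, h1, h2, h1', h2']
        · simp [hx]
      simp only [this, Finset.sum_ite_eq, Finset.mem_univ, if_true, Sum.inr.injEq, Sum.inl.injEq,
        Prod.mk.injEq, true_and]
    · have : ∀ x : Fin r, ((if t = x then if b = 0 then c else d else 0) *
            (if t' = x then if b' = 0 then c' else d' else 0) +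
          (if t = x then if b = 1 then c else d else 0) *
            (if t' = x then if b' = 1 then c' else d' else 0)) = 0 := by
        intro x
        by_cases hx : t = x
        · have : t' ≠ x := fun h => htt (hx.trans h.symm)
          simp [this]
        · simp [hx]
      simp only [this, Finset.sum_const_zero]
      rw [if_neg]
      intro h
      simp only [Sum.inr.injEq, Sum.inl.injEq, Prod.mk.injEq] at h
      exact htt h.1
  · simp [Fintype.sum_sum_type, blk]
  · simp [Fintype.sum_sum_type, blk]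
  · simp [Fintype.sum_sum_type, blk]
  · by_cases huv : u = v
    · simp [Fintype.sum_sum_type, blk, huv, he]
    · simp [Fintype.sum_sum_type, blk, huv]

/-- the jacket matrix, on the index type `Idx w' r`. -/
def K0 {w' r : ℕ} (a : Rˣ) : Idx w' r → Idx w' r → Rˣ := fun x y =>
  if x = z0 w' r ∨ y = z0 w' r then 1 else
    match x, y with
    | Sum.inr (Sum.inl p), Sum.inr (Sum.inl q) =>
        if p.1 = q.1 then (if p.2 = q.2 then a else -a) else -1
    | x, y => if x = y then 1 else -1

theorem K0_val {w' r : ℕ} (a : Rˣ) (x y : Idx w' r) (hx : x ≠ z0 w' r) :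
    (K0 a x y : R) = -1 + (if y = z0 w' r then 2 else 0) + blk ((a : R) + 1) (1 - (a : R)) 2 x y := by
  by_cases hy : y = z0 w' r
  · subst hy
    rcases x with u | p | u
    · have : u ≠ 0 := fun h => hx (by rw [h]; rfl)
      simp only [K0, or_true, if_true, z0, blk, if_neg this]
      push_cast; norm_num
    · simp only [K0, or_true, if_true, z0, blk]
      push_cast; norm_num
    · simp only [K0, or_true, if_true, z0, blk]
      push_cast; norm_num
  · simp only [K0, hx, hy, or_self, if_false]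
    rcases x with u | ⟨t, b⟩ | u <;> rcases y with v | ⟨t', b'⟩ | v
    · by_cases huv : u = v
      · simp [blk, huv]; norm_num
      · simp [blk, huv]
    · simp [blk]
    · simp [blk]
    · simp [blk]
    · by_cases h1 : t = t'
      · by_cases h2 : b = b'
        · simp [blk, h1, h2]
        · simp only [h1, if_true, h2, if_false, Units.val_neg, blk]
          abel
      · simp [blk, h1]
    · simp [blk]
    · simp [blk]
    · simp [blk]
    · by_cases huv : u = v
      · simp [blk, huv]; norm_num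
      · simp [blk, huv]

theorem K0_symm {w' r : ℕ} (a : Rˣ) (x y : Idx w' r) : K0 a x y = K0 a y x := by
  unfold K0
  by_cases h : x = z0 w' r ∨ y = z0 w' r
  · rw [if_pos h, if_pos h.symm]
  · rw [if_neg h, if_neg (fun h' => h h'.symm)]
    rcases x with u | ⟨t, b⟩ | u <;> rcases y with v | ⟨t', b'⟩ | v <;>
      simp [eq_comm]

theorem K0_inv {w' r : ℕ} (a : Rˣ) (x y : Idx w' r) : (K0 a x y)⁻¹ = K0 a⁻¹ x y := by
  unfold K0
  by_cases h : x = z0 w' r ∨ y = z0 w' r
  · rw [if_pos h, if_pos h, inv_one]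
  · rw [if_neg h, if_neg h]
    rcases x with u | ⟨t, b⟩ | u <;> rcases y with v | ⟨t', b'⟩ | v <;>
      simp only [] <;> split_ifs <;> simp


theorem K0_orth {w' r : ℕ} (a : Rˣ) (h4 : ((2 * (w' + 1 + r) : ℕ) : R) = 4)
    (x y : Idx w' r) :
    ∑ k, (K0 a x k : R) * (((K0 a y k)⁻¹ : Rˣ) : R) = if x = y then 4 else 0 := by
  have hcard : ((Fintype.card (Idx w' r) : ℕ) : R) = 4 := by
    rw [← h4]
    congr 1
    simp only [Idx, Fintype.card_sum, Fintype.card_prod, Fintype.card_fin]
    ring
  have hs : ∀ c : R, c + 2 - c = 2 := fun c => by abel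
  have hrow : ∀ (b : Rˣ) (y : Idx w' r), y ≠ z0 w' r → ∑ k, (K0 b y k : R) = 0 := by
    intro b y hy
    simp only [K0_val b y _ hy, Finset.sum_add_distrib, Finset.sum_const, Finset.card_univ]
    rw [sum_blk _ _ _ (by abel_nf; norm_num)]
    simp only [nsmul_eq_mul, hcard, Finset.sum_ite_eq', Finset.mem_univ, if_true]
    norm_num
  simp only [K0_inv]
  by_cases hx : x = z0 w' r
  · by_cases hy : y = z0 w' r
    · have e1 : ∀ k, (K0 a x k : R) = 1 := fun k => by simp [K0, hx]
      have e2 : ∀ k, (K0 a⁻¹ y k : R) = 1 := fun k => by simp [K0, hy]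
      simp only [e1, e2, mul_one, Finset.sum_const, Finset.card_univ, nsmul_eq_mul, hcard]
      rw [if_pos (hx.trans hy.symm)]
    · have : ∀ k, (K0 a x k : R) = 1 := fun k => by simp [K0, hx]
      simp only [this, one_mul]
      rw [hrow _ _ hy, if_neg (fun h => hy (h.symm.trans hx))]
  · by_cases hy : y = z0 w' r
    · have : ∀ k, (K0 a⁻¹ y k : R) = 1 := fun k => by simp [K0, hy]
      simp only [this, mul_one]
      rw [hrow _ _ hx, if_neg (fun h => hx (h.trans hy))]
    · simp only [K0_val a x _ hx, K0_val a⁻¹ y _ hy]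
      have e : ∀ k : Idx w' r,
          (-1 + (if k = z0 w' r then 2 else 0) + blk ((a : R) + 1) (1 - (a : R)) 2 x k) *
          (-1 + (if k = z0 w' r then 2 else 0) +
            blk (((a⁻¹ : Rˣ) : R) + 1) (1 - ((a⁻¹ : Rˣ) : R)) 2 y k)
          = 1 + blk ((a : R) + 1) (1 - (a : R)) 2 x k *
              blk (((a⁻¹ : Rˣ) : R) + 1) (1 - ((a⁻¹ : Rˣ) : R)) 2 y k
            - blk ((a : R) + 1) (1 - (a : R)) 2 x k
            - blk (((a⁻¹ : Rˣ) : R) + 1) (1 - ((a⁻¹ : Rˣ) : R)) 2 y k := by
        intro k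
        by_cases hk : k = z0 w' r
        · have h1 : ∀ (c d : R) (z : Idx w' r), z ≠ z0 w' r → blk c d 2 z k = 0 := by
            intro c d z hz
            rw [hk]
            rcases z with u | p | u
            · have : u ≠ 0 := fun h => hz (by rw [h]; rfl)
              simp [blk, z0, this]
            · simp [blk, z0]
            · simp [blk, z0]
          simp only [hk, if_true]
          rw [hk] at h1
          rw [h1 _ _ x hx, h1 _ _ y hy]
          norm_num
        · simp only [hk, if_false, add_zero]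
          noncomm_ring
      simp only [e, Finset.sum_sub_distrib, Finset.sum_add_distrib, Finset.sum_const,
        Finset.card_univ, nsmul_eq_mul, hcard, mul_one]
      rw [sum_blk _ _ _ (by abel_nf; norm_num), sum_blk _ _ _ (by abel_nf; norm_num),
        sum_blk_blk _ _ _ _ _ 4 ?_ ?_ (by norm_num)]
      · split_ifs <;> norm_num
      · have : (a : R) * ((a⁻¹ : Rˣ) : R) = 1 := Units.mul_inv a
        simp only [mul_add, add_mul, mul_sub, sub_mul, mul_one, one_mul, this]
        abel_nf
        norm_num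
      · have : (a : R) * ((a⁻¹ : Rˣ) : R) = 1 := Units.mul_inv a
        simp only [mul_add, add_mul, mul_sub, sub_mul, mul_one, one_mul, this]
        abel


/-- the numbering of the index type. -/
def eqv (w' r : ℕ) : Fin (2 * (w' + 1 + r)) ≃ Idx w' r :=
  (finCongr (by ring : 2 * (w' + 1 + r) = (w' + 1) + (r * 2 + (w' + 1)))).trans
    (finSumFinEquiv.symm.trans (Equiv.sumCongr (Equiv.refl _)
      (finSumFinEquiv.symm.trans (Equiv.sumCongr finProdFinEquiv.symm (Equiv.refl _)))))

theorem eqv_symm_inl {w' r : ℕ} (u : Fin (w' + 1)) :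
    (((eqv w' r).symm (Sum.inl u) : Fin _) : ℕ) = u := by
  simp [eqv]

theorem eqv_symm_pair {w' r : ℕ} (p : Fin r × Fin 2) :
    (((eqv w' r).symm (Sum.inr (Sum.inl p)) : Fin _) : ℕ) = (w' + 1) + (p.2 + 2 * p.1) := by
  simp [eqv]

theorem eqv_zero {w' r : ℕ} (i : Fin (2 * (w' + 1 + r))) (hi : (i : ℕ) = 0) :
    eqv w' r i = z0 w' r := by
  have : i = (eqv w' r).symm (z0 w' r) := by
    apply Fin.ext
    rw [hi, z0, eqv_symm_inl]; rfl
  rw [this, Equiv.apply_symm_apply]

/-- the matrix. -/
def KK {w' r : ℕ} (a : Rˣ) (i j : Fin (2 * (w' + 1 + r))) : Rˣ :=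
  K0 a (eqv w' r i) (eqv w' r j)

theorem K0_pm {w' r : ℕ} (a : Rˣ) (x y : Idx w' r) (hx : ∀ p, x ≠ Sum.inr (Sum.inl p)) :
    K0 a x y = 1 ∨ K0 a x y = -1 := by
  unfold K0
  by_cases h : x = z0 w' r ∨ y = z0 w' r
  · rw [if_pos h]; exact Or.inl rfl
  · rw [if_neg h]
    rcases x with u | p | u
    · simp only []
      split_ifs
      · exact Or.inl rfl
      · exact Or.inr rfl
    · exact absurd rfl (hx p)
    · simp only []
      split_ifs
      · exact Or.inl rfl
      · exact Or.inr rfl

theorem K0_pair {w' r : ℕ} (a : Rˣ) (p : Fin r × Fin 2) :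
    K0 a (Sum.inr (Sum.inl p) : Idx w' r) (Sum.inr (Sum.inl p)) = a := by
  simp [K0, z0]

theorem KK_border {w' r : ℕ} (a : Rˣ) : Border (w' + 1) (KK (w' := w') (r := r) a) := by
  intro i j hi
  have h1 : ∀ p, eqv w' r i ≠ Sum.inr (Sum.inl p) := by
    intro p hp
    have h2 : i = (eqv w' r).symm (Sum.inr (Sum.inl p)) := by rw [← hp, Equiv.symm_apply_apply]
    have h3 := eqv_symm_pair (w' := w') p
    rw [← h2] at h3
    have h4 := p.1.2
    have h5 := p.2.2
    rcases hi with hi | hi <;> omega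
  refine ⟨K0_pm a _ _ h1, ?_⟩
  unfold KK
  rw [K0_symm]
  exact K0_pm a _ _ h1

theorem KK_normalised {w' r : ℕ} (a : Rˣ) : Normalised (KK (w' := w') (r := r) a) := by
  intro i j hi
  simp [KK, eqv_zero i hi, K0]

theorem KK_gbh {w' r : ℕ} (N : Subgroup Rˣ) (a : Rˣ) (ha : a ∈ N) (hm : (-1 : Rˣ) ∈ N)
    (h4 : ((2 * (w' + 1 + r) : ℕ) : R) = 4) (h4' : (4 : R) ≠ 0) :
    IsGBH N (KK (w' := w') (r := r) a) := by
  have h1 : ∀ (i j : Fin (2 * (w' + 1 + r))),
      ∑ k, (KK a i k : R) * (((KK a j k)⁻¹ : Rˣ) : R)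
        = if i = j then ((2 * (w' + 1 + r) : ℕ) : R) else 0 := by
    intro i j
    simp only [KK]
    rw [Equiv.sum_comp (eqv w' r) (fun k => (K0 a (eqv w' r i) k : R) *
      (((K0 a (eqv w' r j) k)⁻¹ : Rˣ) : R)), K0_orth a h4, h4]
    simp
  refine isGBH_of (by omega) ?_ ?_ h1 ?_
  · intro h
    rw [← ringChar.spec, h4] at h
    exact h4' h
  · intro i j
    unfold KK K0
    split_ifs
    · exact N.one_mem
    · generalize eqv w' r i = x
      generalize eqv w' r j = y
      rcases x with u | ⟨t, b⟩ | u <;> rcases y with v | ⟨t', b'⟩ | v <;> simp only [] <;>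
        split_ifs <;> first | exact N.one_mem | exact hm | exact ha | skip
      rw [← neg_one_mul]
      exact N.mul_mem hm ha
  · intro i j
    simp only [KK, K0_inv]
    have h2 : ∀ k : Fin (2 * (w' + 1 + r)),
        (K0 a⁻¹ (eqv w' r k) (eqv w' r i) : R) * (K0 a (eqv w' r k) (eqv w' r j) : R) =
        (K0 a⁻¹ (eqv w' r i) (eqv w' r k) : R) *
          (((K0 a⁻¹ (eqv w' r j) (eqv w' r k))⁻¹ : Rˣ) : R) := by
      intro k
      rw [K0_inv, inv_inv, K0_symm a⁻¹ (eqv w' r k), K0_symm a (eqv w' r k)]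
    simp only [h2]
    rw [Equiv.sum_comp (eqv w' r) (fun k => (K0 a⁻¹ (eqv w' r i) k : R) *
      (((K0 a⁻¹ (eqv w' r j) k)⁻¹ : Rˣ) : R)), K0_orth a⁻¹ h4, h4]
    simp

theorem KK_form {w' r : ℕ} (a : Rˣ) : HasForm (KK (w' := w') (r := r) a) (w' + 1) :=
  ⟨KK a, ⟨Equiv.refl _, Equiv.refl _, fun _ _ => rfl⟩, KK_normalised a, KK_border a⟩

theorem form_mono {v : ℕ} {K : Fin v → Fin v → Rˣ} {m m' : ℕ} (h : m ≤ m') (hK : HasForm K m') :
    HasForm K m := by
  obtain ⟨K', h1, h2, h3⟩ := hK
  refine ⟨K', h1, h2, fun i j hi => h3 i j ?_⟩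
  rcases hi with hi | hi <;> omega

theorem KK_width {w' r : ℕ} (a : Rˣ) (ha1 : a ≠ 1) (ha2 : a ≠ -1) :
    HasWidth (KK (w' := w') (r := r) a) (w' + 1) := by
  refine ⟨by omega, by omega, KK_form a, ?_⟩
  rintro m hm ⟨K', ⟨σ, τ, hK⟩, -, hB⟩
  have key : ∀ p : Fin r × Fin 2, ((σ.symm ((eqv w' r).symm (Sum.inr (Sum.inl p))) : Fin _) : ℕ) ∈
      Finset.Ico m (2 * (w' + 1 + r) - m) := by
    intro p
    rw [Finset.mem_Ico]
    by_contra hcon
    have h1 := (hB (σ.symm ((eqv w' r).symm (Sum.inr (Sum.inl p))))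
      (τ.symm ((eqv w' r).symm (Sum.inr (Sum.inl p)))) (by omega)).1
    rw [hK, Equiv.apply_symm_apply, Equiv.apply_symm_apply] at h1
    simp only [KK, Equiv.apply_symm_apply, K0_pair] at h1
    rcases h1 with h1 | h1
    · exact ha1 h1
    · exact ha2 h1
  have hcard : Fintype.card (Fin r × Fin 2) ≤ (Finset.Ico m (2 * (w' + 1 + r) - m)).card := by
    rw [← Finset.card_univ]
    refine Finset.card_le_card_of_injOn
      (fun p => ((σ.symm ((eqv w' r).symm (Sum.inr (Sum.inl p))) : Fin _) : ℕ)) ?_ ?_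
    · intro p _
      exact key p
    · intro p _ q _ h
      have h1 := Fin.ext h
      have h2 := (eqv w' r).symm.injective (σ.symm.injective h1)
      simpa using h2
  rw [Nat.card_Ico, Fintype.card_prod, Fintype.card_fin, Fintype.card_fin] at hcard
  omega


/-- the number of ones in a row of the construction without entries outside `{1, -1}`. -/
theorem KK_ones [DecidableEq Rˣ] {w' r : ℕ} (a : Rˣ) (ha1 : a ≠ 1) (ha2 : a ≠ -1)
    (hne : (1 : Rˣ) ≠ -1) (i : Fin (2 * (w' + 1 + r)))
    (hi : ∀ j, KK (w' := w') (r := r) a i j = 1 ∨ KK (w' := w') (r := r) a i j = -1) :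
    (Finset.univ.filter fun j => KK (w' := w') (r := r) a i j = 1).card = 2 * (w' + 1 + r) ∨
    (Finset.univ.filter fun j => KK (w' := w') (r := r) a i j = 1).card = 2 := by
  by_cases h0 : eqv w' r i = z0 w' r
  · left
    rw [Finset.filter_true_of_mem, Finset.card_univ, Fintype.card_fin]
    intro j _
    simp [KK, K0, h0]
  · right
    have h1 : ∀ p, eqv w' r i ≠ Sum.inr (Sum.inl p) := by
      intro p hp
      have := hi i
      unfold KK at this
      rw [hp, K0_pair] at this
      rcases this with h | h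
      · exact ha1 h
      · exact ha2 h
    have h2 : (Finset.univ.filter fun j => KK (w' := w') (r := r) a i j = 1) =
        {(eqv w' r).symm (z0 w' r), i} := by
      ext j
      simp only [Finset.mem_filter, Finset.mem_univ, true_and, Finset.mem_insert,
        Finset.mem_singleton]
      have hj : j = (eqv w' r).symm (z0 w' r) ↔ eqv w' r j = z0 w' r := by
        rw [Equiv.eq_symm_apply]
      rw [hj]
      have hij : j = i ↔ eqv w' r i = eqv w' r j := by
        rw [(eqv w' r).injective.eq_iff]; exact eq_comm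
      rw [hij]
      unfold KK K0
      by_cases hjz : eqv w' r j = z0 w' r
      · simp [hjz]
      · simp only [h0, hjz, or_self, if_false, false_or]
        generalize eqv w' r i = x at *
        generalize eqv w' r j = y at *
        rcases x with u | p | u
        · by_cases h : (Sum.inl u : Idx w' r) = y
          · simp [h]
          · simp [h, hne.symm]
        · exact absurd rfl (h1 p)
        · by_cases h : (Sum.inr (Sum.inr u) : Idx w' r) = y
          · simp [h]
          · simp [h, hne.symm]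
    rw [h2, Finset.card_pair]
    intro h
    apply h0
    rw [← h, Equiv.apply_symm_apply]

theorem arith (A B p q : ℕ) (hA : 2 ≤ A) (hB : 2 ≤ B) (hAB : 6 ≤ A * B) (hp : 1 ≤ p)
    (hpA : p ≤ A) (hq : 1 ≤ q) (hqB : q ≤ B) (h : p * q + (A - p) * (B - q) = 2) :
    A = 2 ∨ B = 2 := by
  obtain ⟨s, rfl⟩ := Nat.exists_eq_add_of_le hpA
  obtain ⟨t, rfl⟩ := Nat.exists_eq_add_of_le hqB
  rw [Nat.add_sub_cancel_left, Nat.add_sub_cancel_left] at h
  have hp2 : p ≤ 2 := by nlinarith
  have hq2 : q ≤ 2 := by nlinarith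
  interval_cases p <;> interval_cases q
  · have h1 : s * t = 1 := by omega
    have h2 : s = 1 := Nat.eq_one_of_mul_eq_one_right h1
    have h3 : t = 1 := Nat.eq_one_of_mul_eq_one_left h1
    rw [h2, h3] at hAB
    omega
  · have h' : s * t = 0 := by omega
    rcases Nat.mul_eq_zero.1 h' with h' | h' <;> omega
  · have h' : s * t = 0 := by omega
    rcases Nat.mul_eq_zero.1 h' with h' | h' <;> omega
  · omega

theorem KK_primary {w' r : ℕ} (N : Subgroup Rˣ) (a : Rˣ) (ha : a ∈ N) (hm : (-1 : Rˣ) ∈ N)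
    (ha1 : a ≠ 1) (ha2 : a ≠ -1) (hn : 3 ≤ w' + 1 + r)
    (h4 : ((2 * (w' + 1 + r) : ℕ) : R) = 4) (h4' : (4 : R) ≠ 0) :
    IsPrimary N (KK (w' := w') (r := r) a) := by
  classical
  have hne : (1 : Rˣ) ≠ -1 := by
    intro h
    have h5 : (1 : R) = -1 := by
      have := congrArg Units.val h
      simpa using this
    apply h4'
    have : (2 : R) = 0 := by
      calc (2 : R) = 1 + 1 := by norm_num
        _ = 1 + -1 := by rw [← h5]
        _ = 0 := by norm_num
    calc (4 : R) = 2 + 2 := by norm_num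
      _ = 0 := by rw [this]; norm_num
  refine ⟨⟨KK_gbh N a ha hm h4 h4', KK_normalised a, form_mono (by omega) (KK_form a)⟩, ?_⟩
  rintro ⟨A, B, K₁, K₂, ⟨g1, n1, -⟩, ⟨g2, n2, -⟩, σ, τ, hK⟩
  have hA := g1.two_le
  have hB := g2.two_le
  have hAB : A * B = 2 * (w' + 1 + r) := by
    have := Fintype.card_congr σ
    simp only [Fintype.card_fin, Fintype.card_prod] at this
    exact this.symm
  -- a special row
  let p0 : Fin A := ⟨0, by omega⟩
  let q0 : Fin B := ⟨0, by omega⟩
  let i0 : Fin (2 * (w' + 1 + r)) := (eqv w' r).symm (Sum.inr (Sum.inr 0))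
  have hi0 : ∀ j, KK (w' := w') (r := r) a i0 j = 1 ∨ KK (w' := w') (r := r) a i0 j = -1 := by
    intro j
    apply K0_pm
    intro p hp
    simp [i0] at hp
  have hc0 : (Finset.univ.filter fun j => KK (w' := w') (r := r) a i0 j = 1).card = 2 := by
    rcases KK_ones a ha1 ha2 hne i0 hi0 with h | h
    · exfalso
      -- all entries one: impossible, since the entry at the other special index is -1
      have h1 : (Finset.univ.filter fun j => KK (w' := w') (r := r) a i0 j = 1) = Finset.univ := by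
        apply Finset.eq_univ_of_card
        rw [h, Fintype.card_fin]
      have hg := row_orth (KK_gbh (w' := w') (r := r) N a ha hm h4 h4') i0
        ((eqv w' r).symm (z0 w' r))
      have h2 : ∀ k, KK (w' := w') (r := r) a i0 k = 1 := by
        intro k
        have : k ∈ (Finset.univ.filter fun j => KK (w' := w') (r := r) a i0 j = 1) := by
          rw [h1]; exact Finset.mem_univ _
        exact (Finset.mem_filter.1 this).2
      have h3 : ∀ k, KK (w' := w') (r := r) a ((eqv w' r).symm (z0 w' r)) k = 1 := by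
        intro k
        simp [KK, K0]
      simp only [h2, h3] at hg
      rw [if_neg] at hg
      · simp only [Units.val_one, inv_one, mul_one, Finset.sum_const, Finset.card_univ,
          Fintype.card_fin, nsmul_eq_mul] at hg
        rw [h4] at hg
        exact h4' hg
      · intro h
        have := (eqv w' r).symm.injective h
        simp [z0] at this
    · exact h
  set x : Fin A → Rˣ := fun p => K₁ (σ i0).1 p with hx
  set y : Fin B → Rˣ := fun q => K₂ (σ i0).2 q with hy
  have hx0 : x p0 = 1 := (n1 p0 _ rfl).2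
  have hy0 : y q0 = 1 := (n2 q0 _ rfl).2
  have hxy : ∀ p q, KK (w' := w') (r := r) a i0 (τ.symm (p, q)) = x p * y q := by
    intro p q
    rw [hK, Equiv.apply_symm_apply]
  have hx1 : ∀ p, x p = 1 ∨ x p = -1 := by
    intro p
    have := hi0 (τ.symm (p, q0))
    rw [hxy, hy0, mul_one] at this
    exact this
  have hy1 : ∀ q, y q = 1 ∨ y q = -1 := by
    intro q
    have := hi0 (τ.symm (p0, q))
    rw [hxy, hx0, one_mul] at this
    exact this
  have hcount : (Finset.univ.filter fun pq : Fin A × Fin B => x pq.1 * y pq.2 = 1).card = 2 := by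
    rw [← hc0]
    refine Finset.card_nbij' (fun pq => τ.symm pq) (fun j => τ j) ?_ ?_ ?_ ?_
    · intro pq hpq
      simp only [Finset.coe_filter, Finset.mem_univ, true_and, Set.mem_ofPred_eq] at hpq ⊢
      rw [← hpq, ← hxy]
    · intro j hj
      simp only [Finset.coe_filter, Finset.mem_univ, true_and, Set.mem_ofPred_eq] at hj ⊢
      rw [← hj, ← hxy]; simp
    · intro pq _; simp
    · intro j _; simp
  set P := Finset.univ.filter fun p => x p = 1 with hP
  set Q := Finset.univ.filter fun q => y q = 1 with hQ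
  have hsplit : (Finset.univ.filter fun pq : Fin A × Fin B => x pq.1 * y pq.2 = 1) =
      (P ×ˢ Q) ∪ (Pᶜ ×ˢ Qᶜ) := by
    ext ⟨p, q⟩
    simp only [Finset.mem_filter, Finset.mem_univ, true_and, Finset.mem_union,
      Finset.mem_product, Finset.mem_compl, hP, hQ]
    rcases hx1 p with h1 | h1 <;> rcases hy1 q with h2 | h2 <;> simp [h1, h2, hne.symm]
  have hdisj : Disjoint (P ×ˢ Q) (Pᶜ ×ˢ Qᶜ) := by
    rw [Finset.disjoint_left]
    rintro ⟨p, q⟩ h1 h2
    simp only [Finset.mem_product, Finset.mem_compl] at h1 h2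
    exact h2.1 h1.1
  rw [hsplit, Finset.card_union_of_disjoint hdisj, Finset.card_product, Finset.card_product,
    Finset.card_compl, Finset.card_compl, Fintype.card_fin, Fintype.card_fin] at hcount
  have hP1 : 1 ≤ P.card := Finset.card_pos.2 ⟨p0, by simp [hP, hx0]⟩
  have hQ1 : 1 ≤ Q.card := Finset.card_pos.2 ⟨q0, by simp [hQ, hy0]⟩
  have hPA : P.card ≤ A := by simpa using Finset.card_le_univ P
  have hQB : Q.card ≤ B := by simpa using Finset.card_le_univ Q
  rcases arith A B P.card Q.card hA hB (by omega) hP1 hPA hQ1 hQB hcount with rfl | rfl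
  · -- first factor of order two
    have h11 : K₁ 1 1 = -1 := by
      have := row_orth g1 1 0
      rw [Fin.sum_univ_two, (n1 0 0 rfl).1, (n1 0 1 rfl).1, (n1 0 1 rfl).2, if_neg (by decide)]
        at this
      apply Units.ext
      simp only [Units.val_one, inv_one, mul_one, Units.val_neg] at this ⊢
      exact (neg_eq_of_add_eq_zero_right this).symm
    have h10 : K₁ 1 0 = 1 := (n1 0 1 rfl).2
    set i1 := σ.symm (1, q0) with hi1
    have hrow : ∀ j, KK (w' := w') (r := r) a i1 j = K₁ 1 (τ j).1 := by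
      intro j
      rw [hK, hi1, Equiv.apply_symm_apply, (n2 q0 _ rfl).1, mul_one]
    have hpm : ∀ j, KK (w' := w') (r := r) a i1 j = 1 ∨ KK (w' := w') (r := r) a i1 j = -1 := by
      intro j
      rw [hrow]
      generalize (τ j).1 = z
      fin_cases z
      · exact Or.inl h10
      · exact Or.inr h11
    have hcnt : (Finset.univ.filter fun j => KK (w' := w') (r := r) a i1 j = 1).card = B := by
      have : (Finset.univ.filter fun j => KK (w' := w') (r := r) a i1 j = 1).card =
          (Finset.univ : Finset (Fin B)).card := by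
        symm
        refine Finset.card_nbij' (fun q => τ.symm (0, q)) (fun j => (τ j).2) ?_ ?_ ?_ ?_
        · intro q _
          simp only [Finset.coe_filter, Finset.mem_univ, true_and, Set.mem_ofPred_eq, hrow,
            Equiv.apply_symm_apply]
          exact h10
        · intro j _; simp
        · intro q _; simp
        · intro j hj
          simp only [Finset.coe_filter, Finset.mem_univ, true_and, Set.mem_ofPred_eq, hrow] at hj
          have : (τ j).1 = 0 := by
            by_contra hz
            have hz' : (τ j).1 = 1 := by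
              generalize (τ j).1 = z at hz
              fin_cases z
              · exact absurd rfl hz
              · rfl
            rw [hz', h11] at hj
            exact hne hj.symm
          simp only
          rw [← this]; simp
      rw [this, Finset.card_univ, Fintype.card_fin]
    rcases KK_ones a ha1 ha2 hne i1 hpm with h | h <;> omega
  · -- second factor of order two
    have h11 : K₂ 1 1 = -1 := by
      have := row_orth g2 1 0
      rw [Fin.sum_univ_two, (n2 0 0 rfl).1, (n2 0 1 rfl).1, (n2 0 1 rfl).2, if_neg (by decide)]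
        at this
      apply Units.ext
      simp only [Units.val_one, inv_one, mul_one, Units.val_neg] at this ⊢
      exact (neg_eq_of_add_eq_zero_right this).symm
    have h10 : K₂ 1 0 = 1 := (n2 0 1 rfl).2
    set i1 := σ.symm (p0, 1) with hi1
    have hrow : ∀ j, KK (w' := w') (r := r) a i1 j = K₂ 1 (τ j).2 := by
      intro j
      rw [hK, hi1, Equiv.apply_symm_apply, (n1 p0 _ rfl).1, one_mul]
    have hpm : ∀ j, KK (w' := w') (r := r) a i1 j = 1 ∨ KK (w' := w') (r := r) a i1 j = -1 := by
      intro j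
      rw [hrow]
      generalize (τ j).2 = z
      fin_cases z
      · exact Or.inl h10
      · exact Or.inr h11
    have hcnt : (Finset.univ.filter fun j => KK (w' := w') (r := r) a i1 j = 1).card = A := by
      have : (Finset.univ.filter fun j => KK (w' := w') (r := r) a i1 j = 1).card =
          (Finset.univ : Finset (Fin A)).card := by
        symm
        refine Finset.card_nbij' (fun p => τ.symm (p, 0)) (fun j => (τ j).1) ?_ ?_ ?_ ?_
        · intro q _
          simp only [Finset.coe_filter, Finset.mem_univ, true_and, Set.mem_ofPred_eq, hrow,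
            Equiv.apply_symm_apply]
          exact h10
        · intro j _; simp
        · intro q _; simp
        · intro j hj
          simp only [Finset.coe_filter, Finset.mem_univ, true_and, Set.mem_ofPred_eq, hrow] at hj
          have : (τ j).2 = 0 := by
            by_contra hz
            have hz' : (τ j).2 = 1 := by
              generalize (τ j).2 = z at hz
              fin_cases z
              · exact absurd rfl hz
              · rfl
            rw [hz', h11] at hj
            exact hne hj.symm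
          simp only
          rw [← this]; simp
      rw [this, Finset.card_univ, Fintype.card_fin]
    rcases KK_ones a ha1 ha2 hne i1 hpm with h | h <;> omega

/-- (F) holds in characteristic different from `0, 1, 2, 4`. -/
theorem propF_of (N : Subgroup Rˣ) (h0 : ringChar R ≠ 0) (h4 : ¬ ringChar R ∣ 4)
    (hm : (-1 : Rˣ) ∈ N) (a : Rˣ) (ha : a ∈ N) (ha1 : a ≠ 1) (ha2 : a ≠ -1) : PropF R N := by
  have h4' : (4 : R) ≠ 0 := by
    have := natCast_ne_zero h4
    exact_mod_cast this
  have hinf : Function.Injective (fun j : ℕ => 2 + ringChar R * (j + 1)) := by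
    intro j j' h
    simp only at h
    have h1 : ringChar R * (j + 1) = ringChar R * (j' + 1) := by omega
    have := Nat.eq_of_mul_eq_mul_left (Nat.pos_of_ne_zero h0) h1
    omega
  refine (Set.infinite_range_of_injective hinf).mono ?_
  rintro _ ⟨j, rfl⟩
  intro w hw
  simp only at hw ⊢
  set n := 2 + ringChar R * (j + 1) with hn
  have hn3 : 3 ≤ n := by
    have : 0 < ringChar R * (j + 1) := Nat.mul_pos (Nat.pos_of_ne_zero h0) (Nat.succ_pos j)
    omega
  have hwn : w ≤ n := by
    rcases Nat.even_or_odd n with h | h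
    · exact hw.2.1 h
    · have := hw.2.2 h; omega
  obtain ⟨w', rfl⟩ : ∃ w', w = w' + 1 := ⟨w - 1, by have := hw.1; omega⟩
  obtain ⟨r, hr⟩ := Nat.exists_eq_add_of_le hwn
  have hv : ((2 * (w' + 1 + r) : ℕ) : R) = 4 := by
    rw [← hr, hn]
    push_cast
    have : ((ringChar R : ℕ) : R) = 0 := ringChar.Nat.cast_ringChar
    rw [this]
    norm_num
  rw [hr]
  rw [hr] at hn3
  exact ⟨KK a, KK_primary N a ha hm ha1 ha2 hn3 hv h4', KK_width a ha1 ha2⟩

end Construction


/-! ### necessary conditions -/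

section Necessary

variable {R : Type u} [Ring R]

/-- consequences of (F): arbitrarily large `n` with all admissible widths. -/
theorem propF_large {N : Subgroup Rˣ} (h : PropF R N) (B : ℕ) : ∃ n, B < n ∧ ∀ w, Admissible n w →
    ∃ K : Fin (2 * n) → Fin (2 * n) → Rˣ, IsPrimary N K ∧ HasWidth K w := by
  obtain ⟨n, hn, hB⟩ := h.exists_gt B
  exact ⟨n, hB, hn⟩

theorem admissible_one {n : ℕ} (hn : 2 ≤ n) : Admissible n 1 :=
  ⟨le_rfl, fun _ => by omega, fun _ => by omega⟩

theorem perm_mem {N : Subgroup Rˣ} {v : ℕ} {M M' : Fin v → Fin v → Rˣ} (h : IsGBH N M)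
    (hp : PermEquiv M M') (i j : Fin v) : M' i j ∈ N := by
  obtain ⟨σ, τ, hM⟩ := hp
  rw [hM]; exact h.mem _ _

theorem neg_one_mem {N : Subgroup Rˣ} (h : PropF R N) : (-1 : Rˣ) ∈ N := by
  obtain ⟨n, hn, H⟩ := propF_large h 1
  obtain ⟨K, ⟨⟨hG, -, K', hp, hN, hB⟩, -⟩, -⟩ := H 1 (admissible_one hn)
  by_contra hm
  let i0 : Fin (2 * n) := ⟨0, by omega⟩
  let il : Fin (2 * n) := ⟨2 * n - 1, by omega⟩
  have h1 : ∀ j, K' il j = 1 := by
    intro j
    rcases (hB il j (Or.inr le_rfl)).1 with h1 | h1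
    · exact h1
    · exact absurd (h1 ▸ perm_mem hG hp il j) hm
  have h2 := perm_row_orth hG hp il i0
  have h3 : il ≠ i0 := by
    intro h
    have := congrArg Fin.val h
    simp only [il, i0] at this
    omega
  rw [if_neg h3] at h2
  simp only [h1, (hN i0 _ rfl).1, Units.val_one, inv_one, mul_one, Finset.sum_const,
    Finset.card_univ, Fintype.card_fin, nsmul_eq_mul] at h2
  exact natCast_ne_zero hG.char_not_dvd h2

theorem exists_other {N : Subgroup Rˣ} (h : PropF R N) : ∃ a ∈ N, a ≠ 1 ∧ a ≠ -1 := by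
  obtain ⟨n, hn, H⟩ := propF_large h 1
  obtain ⟨K, ⟨⟨hG, hNK, -⟩, -⟩, -, -, -, hW⟩ := H 1 (admissible_one hn)
  by_contra hcon
  push Not at hcon
  have h1 : ∀ i j, K i j = 1 ∨ K i j = -1 := by
    intro i j
    by_cases h : K i j = 1
    · exact Or.inl h
    · exact Or.inr (hcon _ (hG.mem i j) h)
  have h2 : HasForm K n := ⟨K, ⟨Equiv.refl _, Equiv.refl _, fun _ _ => rfl⟩, hNK,
    fun i j _ => ⟨h1 i j, h1 j i⟩⟩
  have := hW n le_rfl h2
  omega

theorem inv_pm {x : Rˣ} (h : x = 1 ∨ x = -1) : x⁻¹ = x := by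
  rcases h with rfl | rfl
  · simp
  · simp

theorem char_not_dvd_four {N : Subgroup Rˣ} (h : PropF R N) : ¬ ringChar R ∣ 4 := by
  intro h4
  have h4 : (4 : R) = 0 := by
    have := (ringChar.spec R 4).2 h4
    exact_mod_cast this
  obtain ⟨n, hn, H⟩ := propF_large h 2
  obtain ⟨K, ⟨⟨hG, -, -⟩, -⟩, -, -, ⟨K', hp, hN, hB⟩, -⟩ :=
    H 2 ⟨by omega, fun _ => by omega, fun _ => by omega⟩
  let i0 : Fin (2 * n) := ⟨0, by omega⟩
  let i1 : Fin (2 * n) := ⟨1, by omega⟩
  let il : Fin (2 * n) := ⟨2 * n - 1, by omega⟩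
  have e1 : i1 ≠ i0 := by simp [i1, i0]
  have e2 : il ≠ i0 := by
    intro h
    have := congrArg Fin.val h
    simp only [il, i0] at this
    omega
  have e3 : i1 ≠ il := by
    intro h
    have := congrArg Fin.val h
    simp only [il, i1] at this
    omega
  have p1 : ∀ j, K' i1 j = 1 ∨ K' i1 j = -1 := fun j => (hB i1 j (Or.inl (by simp [i1]))).1
  have p2 : ∀ j, K' il j = 1 ∨ K' il j = -1 := fun j => (hB il j (Or.inr (by simp [il]; omega))).1
  have o1 := perm_row_orth hG hp i1 i0
  have o2 := perm_row_orth hG hp il i0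
  have o3 := perm_row_orth hG hp i1 il
  rw [if_neg e1] at o1
  rw [if_neg e2] at o2
  rw [if_neg e3] at o3
  simp only [(hN i0 _ rfl).1, inv_one, Units.val_one, mul_one] at o1 o2
  have h5 : ∀ k, (0 : R) = 1 + (K' i1 k : R) + (K' il k : R) +
      (K' i1 k : R) * (((K' il k)⁻¹ : Rˣ) : R) := by
    intro k
    rw [inv_pm (p2 k)]
    rcases p1 k with h1 | h1 <;> rcases p2 k with h2 | h2
    · rw [h1, h2]
      calc (0 : R) = 4 := h4.symm
        _ = _ := by push_cast; norm_num
    · rw [h1, h2]; push_cast; norm_num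
    · rw [h1, h2]; push_cast; norm_num
    · rw [h1, h2]; push_cast; norm_num
  have h6 : (0 : R) = ((2 * n : ℕ) : R) := by
    calc (0 : R) = ∑ k : Fin (2 * n), (0 : R) := by simp
      _ = ∑ k : Fin (2 * n), (1 + (K' i1 k : R) + (K' il k : R) +
      (K' i1 k : R) * (((K' il k)⁻¹ : Rˣ) : R)) := Finset.sum_congr rfl fun k _ => h5 k
      _ = ((2 * n : ℕ) : R) := by
        rw [Finset.sum_add_distrib, Finset.sum_add_distrib, Finset.sum_add_distrib, o1, o2, o3]
        simp
  exact natCast_ne_zero hG.char_not_dvd h6.symm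

/-- In a torsion-free ring a matrix of order `2 n ≥ 6` of the form `n - 1` has all entries
in `{1, -1}`. -/
theorem torsion_free_core [Nontrivial R] (hR : ∀ (m : ℤ) (x : R), m • x = 0 → m = 0 ∨ x = 0)
    {N : Subgroup Rˣ} {n : ℕ} (hn : 3 ≤ n) {K K' : Fin (2 * n) → Fin (2 * n) → Rˣ}
    (hG : IsGBH N K) (hp : PermEquiv K K') (hN : Normalised K') (hB : Border (n - 1) K') :
    ∀ i j, K' i j = 1 ∨ K' i j = -1 := by
  classical
  have hcast : ∀ m : ℤ, (m : R) = 0 → m = 0 := by
    intro m hm
    rcases hR m 1 (by simpa using hm) with h | h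
    · exact h
    · exact absurd h one_ne_zero
  let c1 : Fin (2 * n) := ⟨n - 1, by omega⟩
  let c2 : Fin (2 * n) := ⟨n, by omega⟩
  have hc12 : c1 ≠ c2 := by
    intro h
    have := congrArg Fin.val h
    simp only [c1, c2] at this
    omega
  have hbd : ∀ i : Fin (2 * n), i ≠ c1 → i ≠ c2 →
      ((i : ℕ) < n - 1 ∨ 2 * n - (n - 1) ≤ (i : ℕ)) := by
    intro i h1 h2
    have h1' : (i : ℕ) ≠ n - 1 := fun h => h1 (Fin.ext h)
    have h2' : (i : ℕ) ≠ n := fun h => h2 (Fin.ext h)
    omega
  have hpm : ∀ i j, i ≠ c1 → i ≠ c2 → (K' i j = 1 ∨ K' i j = -1) ∧ (K' j i = 1 ∨ K' j i = -1) :=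
    fun i j h1 h2 => hB i j (hbd i h1 h2)
  -- integer signs
  let ε : Rˣ → ℤ := fun x => if x = 1 then 1 else -1
  have hε : ∀ x : Rˣ, (x = 1 ∨ x = -1) → (x : R) = (ε x : R) := by
    rintro x (rfl | rfl)
    · simp [ε]
    · by_cases h : (-1 : Rˣ) = 1
      · rw [h]; simp [ε]
      · simp [ε, h]
  have hε2 : ∀ x : Rˣ, ε x * ε x = 1 := by
    intro x
    simp only [ε]
    split_ifs <;> norm_num
  set S : Finset (Fin (2 * n)) := (Finset.univ.erase c1).erase c2 with hS
  have hSmem : ∀ i, i ∈ S ↔ i ≠ c1 ∧ i ≠ c2 := by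
    intro i
    simp [hS, and_comm]
  have hScard : (S.card : ℤ) = 2 * n - 2 := by
    have : S.card = 2 * n - 2 := by
      rw [hS, Finset.card_erase_of_mem (by simp [hc12.symm]),
        Finset.card_erase_of_mem (Finset.mem_univ _), Finset.card_univ, Fintype.card_fin]
      omega
    rw [this]
    push_cast [Nat.cast_sub (by omega : 2 ≤ 2 * n)]
    ring
  have hsplit : ∀ (α : Type u) [AddCommMonoid α] (f : Fin (2 * n) → α),
      ∑ k, f k = f c1 + (f c2 + ∑ k ∈ S, f k) := by
    intro α _ f
    rw [← Finset.add_sum_erase _ _ (Finset.mem_univ c1),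
      ← Finset.add_sum_erase (Finset.univ.erase c1) _ (show c2 ∈ Finset.univ.erase c1 by
        simp [hc12.symm])]
  have hsplitZ : ∀ (f : Fin (2 * n) → ℤ),
      ∑ k, f k = f c1 + (f c2 + ∑ k ∈ S, f k) := by
    intro f
    rw [← Finset.add_sum_erase _ _ (Finset.mem_univ c1),
      ← Finset.add_sum_erase (Finset.univ.erase c1) _ (show c2 ∈ Finset.univ.erase c1 by
        simp [hc12.symm])]
  -- orthogonality over the integers
  have horth : ∀ i ∈ S, ∀ j ∈ S, ∑ k, ε (K' i k) * ε (K' j k) = if i = j then (2 * n : ℤ) else 0 := by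
    intro i hi j hj
    rw [hSmem] at hi hj
    have h1 := perm_row_orth hG hp i j
    have h2 : ∀ k, (K' i k : R) * (((K' j k)⁻¹ : Rˣ) : R) = ((ε (K' i k) * ε (K' j k) : ℤ) : R) := by
      intro k
      rw [inv_pm (hpm j k hj.1 hj.2).1, hε _ (hpm i k hi.1 hi.2).1, hε _ (hpm j k hj.1 hj.2).1]
      push_cast; rfl
    simp only [h2] at h1
    rw [← Int.cast_sum] at h1
    have h3 : ((∑ k, ε (K' i k) * ε (K' j k) - (if i = j then (2 * n : ℤ) else 0) : ℤ) : R) = 0 := by
      rw [Int.cast_sub, h1]
      split_ifs <;> push_cast <;> simp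
    have := hcast _ h3
    omega
  -- two types of rows
  have hcase : ∃ i1 ∈ S, ε (K' i1 c2) = - ε (K' i1 c1) := by
    by_contra hcon
    push Not at hcon
    have heq : ∀ i ∈ S, ε (K' i c2) = ε (K' i c1) := by
      intro i hi
      have h1 := hcon i hi
      have h2 : ∀ x : Rˣ, ε x = 1 ∨ ε x = -1 := by
        intro x
        simp only [ε]
        split_ifs
        · exact Or.inl rfl
        · exact Or.inr rfl
      rcases h2 (K' i c1) with h3 | h3 <;> rcases h2 (K' i c2) with h4 | h4 <;> omega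
    have hsum : ∑ j, (∑ i ∈ S, ε (K' i c1) * ε (K' i j)) ^ 2 = (2 * n) * (2 * n - 2) := by
      calc ∑ j, (∑ i ∈ S, ε (K' i c1) * ε (K' i j)) ^ 2
          = ∑ j, ∑ i ∈ S, ∑ i' ∈ S, (ε (K' i c1) * ε (K' i j)) * (ε (K' i' c1) * ε (K' i' j)) := by
            refine Finset.sum_congr rfl fun j _ => ?_
            rw [sq, Finset.sum_mul_sum]
        _ = ∑ i ∈ S, ∑ i' ∈ S, ∑ j, (ε (K' i c1) * ε (K' i j)) * (ε (K' i' c1) * ε (K' i' j)) := by
            rw [Finset.sum_comm]
            refine Finset.sum_congr rfl fun i _ => ?_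
            rw [Finset.sum_comm]
        _ = ∑ i ∈ S, ∑ i' ∈ S, (ε (K' i c1) * ε (K' i' c1)) * (if i = i' then (2 * n : ℤ) else 0) := by
            refine Finset.sum_congr rfl fun i hi => Finset.sum_congr rfl fun i' hi' => ?_
            rw [← horth i hi i' hi', Finset.mul_sum]
            exact Finset.sum_congr rfl fun j _ => by ring
        _ = ∑ i ∈ S, (2 * n : ℤ) := by
            refine Finset.sum_congr rfl fun i hi => ?_
            simp only [mul_ite, mul_zero, Finset.sum_ite_eq, hi, if_true, hε2, one_mul]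
        _ = (2 * n) * (2 * n - 2) := by
            rw [Finset.sum_const, nsmul_eq_mul, hScard]; ring
    have hc1 : ∑ i ∈ S, ε (K' i c1) * ε (K' i c1) = 2 * n - 2 := by
      rw [Finset.sum_congr rfl fun i _ => hε2 (K' i c1), Finset.sum_const, nsmul_eq_mul, hScard]
      ring
    have hc2 : ∑ i ∈ S, ε (K' i c1) * ε (K' i c2) = 2 * n - 2 := by
      rw [← hc1]
      exact Finset.sum_congr rfl fun i hi => by rw [heq i hi]
    rw [hsplitZ] at hsum
    simp only [hc1, hc2] at hsum
    have hnn : 0 ≤ ∑ j ∈ S, (∑ i ∈ S, ε (K' i c1) * ε (K' i j)) ^ 2 :=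
      Finset.sum_nonneg fun j _ => sq_nonneg _
    have hn' : (3 : ℤ) ≤ n := by exact_mod_cast hn
    nlinarith
  obtain ⟨i1, hi1, hi1c⟩ := hcase
  let i0 : Fin (2 * n) := ⟨0, by omega⟩
  have hi0 : i0 ∈ S := by
    rw [hSmem]
    constructor
    · intro h
      have := congrArg Fin.val h
      simp only [i0, c1] at this
      omega
    · intro h
      have := congrArg Fin.val h
      simp only [i0, c2] at this
      omega
  have hi0' := (hSmem i0).1 hi0
  have hi1' := (hSmem i1).1 hi1
  -- special rows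
  have hspec : ∀ r, (r = c1 ∨ r = c2) →
      (K' r c1 = 1 ∨ K' r c1 = -1) ∧ (K' r c2 = 1 ∨ K' r c2 = -1) := by
    intro r hr
    have hrS : ∀ i ∈ S, r ≠ i := by
      intro i hi h
      rw [hSmem] at hi
      rcases hr with hr | hr
      · exact hi.1 (h ▸ hr)
      · exact hi.2 (h ▸ hr)
    -- the two linear relations for row `i`
    have hrel : ∀ i ∈ S, ((∑ j ∈ S, ε (K' r j) * ε (K' i j) : ℤ) : R) +
        (K' r c1 : R) * (ε (K' i c1) : R) + (K' r c2 : R) * (ε (K' i c2) : R) = 0 := by
      intro i hi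
      have h1 := perm_row_orth hG hp r i
      rw [if_neg (hrS i hi), hsplit] at h1
      rw [hSmem] at hi
      rw [inv_pm (hpm i c1 hi.1 hi.2).1, inv_pm (hpm i c2 hi.1 hi.2).1,
        hε _ (hpm i c1 hi.1 hi.2).1, hε _ (hpm i c2 hi.1 hi.2).1] at h1
      rw [← h1, Int.cast_sum]
      have : ∑ j ∈ S, ((ε (K' r j) * ε (K' i j) : ℤ) : R) =
          ∑ j ∈ S, (K' r j : R) * (((K' i j)⁻¹ : Rˣ) : R) := by
        refine Finset.sum_congr rfl fun j hj => ?_
        rw [hSmem] at hj
        rw [inv_pm (hpm i j hi.1 hi.2).1, hε _ (hpm i j hi.1 hi.2).1,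
          hε _ (hpm j r hj.1 hj.2).2]
        push_cast; rfl
      rw [this]; abel
    have hrel' : ∀ i ∈ S, ((∑ j ∈ S, ε (K' r j) * ε (K' i j) : ℤ) : R) +
        (((K' r c1)⁻¹ : Rˣ) : R) * (ε (K' i c1) : R) +
        (((K' r c2)⁻¹ : Rˣ) : R) * (ε (K' i c2) : R) = 0 := by
      intro i hi
      have h1 := perm_row_orth hG hp i r
      rw [if_neg (fun h => hrS i hi h.symm), hsplit] at h1
      rw [hSmem] at hi
      rw [hε _ (hpm i c1 hi.1 hi.2).1, hε _ (hpm i c2 hi.1 hi.2).1] at h1
      rw [← h1, Int.cast_sum]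
      have : ∑ j ∈ S, ((ε (K' r j) * ε (K' i j) : ℤ) : R) =
          ∑ j ∈ S, (K' i j : R) * (((K' r j)⁻¹ : Rˣ) : R) := by
        refine Finset.sum_congr rfl fun j hj => ?_
        rw [hSmem] at hj
        rw [inv_pm (hpm j r hj.1 hj.2).2, hε _ (hpm i j hi.1 hi.2).1,
          hε _ (hpm j r hj.1 hj.2).2, mul_comm (ε (K' r j))]
        push_cast; rfl
      rw [this, (Int.cast_commute _ _).eq, (Int.cast_commute (ε (K' i c2)) _).eq]
      abel
    have hone : K' i0 c1 = 1 ∧ K' i0 c2 = 1 := ⟨(hN i0 _ rfl).1, (hN i0 _ rfl).1⟩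
    have hε1 : ε 1 = 1 := by simp [ε]
    set A : ℤ := ∑ j ∈ S, ε (K' r j) * ε (K' i0 j) with hA
    set B : ℤ := ∑ j ∈ S, ε (K' r j) * ε (K' i1 j) with hBdef
    have ra := hrel i0 hi0
    have rb := hrel i1 hi1
    have ra' := hrel' i0 hi0
    have rb' := hrel' i1 hi1
    rw [← hA, hone.1, hone.2, hε1] at ra ra'
    rw [← hBdef, hi1c] at rb rb'
    obtain ⟨s, hs, hs2⟩ : ∃ s : ℤ, ε (K' i1 c1) = s ∧ s * s = 1 := ⟨_, rfl, hε2 _⟩
    rw [hs] at rb rb'
    -- general solution
    have key : ∀ (x y : R), ((A : ℤ) : R) + x * ((1 : ℤ) : R) + y * ((1 : ℤ) : R) = 0 →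
        ((B : ℤ) : R) + x * (s : R) + y * ((-s : ℤ) : R) = 0 →
        2 * x = ((-A - s * B : ℤ) : R) ∧ 2 * y = ((-A + s * B : ℤ) : R) := by
      intro x y h1 h2
      have hsR : (s : R) * (s : R) = 1 := by
        have : ((s * s : ℤ) : R) = ((1 : ℤ) : R) := by rw [hs2]
        simpa using this
      have h2' : ((B : ℤ) : R) * (s : R) + x - y = 0 := by
        have h3 : (((B : ℤ) : R) + x * (s : R) + y * ((-s : ℤ) : R)) * (s : R) = 0 := by
          rw [h2, zero_mul]
        rw [← h3]
        push_cast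
        simp only [add_mul, mul_assoc, neg_mul, hsR, mul_one, mul_neg]
        abel
      have h1' : x + y = -((A : ℤ) : R) := by
        simp only [Int.cast_one, mul_one] at h1
        rw [eq_neg_iff_add_eq_zero, ← h1]
        abel
      have hcomm : ((B : ℤ) : R) * (s : R) = (s : R) * ((B : ℤ) : R) := by
        rw [← Int.cast_mul, ← Int.cast_mul, mul_comm]
      have h2'' : x - y = -((s : R) * ((B : ℤ) : R)) := by
        rw [eq_neg_iff_add_eq_zero, ← hcomm, ← h2']
        abel
      constructor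
      · calc 2 * x = (x + y) + (x - y) := by rw [two_mul]; abel
          _ = _ := by rw [h1', h2'']; push_cast; abel
      · calc 2 * y = (x + y) - (x - y) := by rw [two_mul]; abel
          _ = _ := by rw [h1', h2'']; push_cast; abel
    obtain ⟨k1, k2⟩ := key _ _ ra rb
    obtain ⟨k1', k2'⟩ := key _ _ ra' rb'
    -- a unit `d` with `2 d = 2 d⁻¹ = C` is `±1`
    have fin : ∀ (d : Rˣ) (C : ℤ), 2 * (d : R) = (C : R) → 2 * ((d⁻¹ : Rˣ) : R) = (C : R) →
        d = 1 ∨ d = -1 := by
      intro d C h1 h2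
      have h3 : ((C * C - 4 : ℤ) : R) = 0 := by
        push_cast
        have : (C : R) * (C : R) = 4 := by
          calc (C : R) * (C : R) = (2 * (d : R)) * (2 * ((d⁻¹ : Rˣ) : R)) := by rw [h1, h2]
            _ = 4 * ((d : R) * ((d⁻¹ : Rˣ) : R)) := by noncomm_ring
            _ = 4 := by rw [Units.mul_inv, mul_one]
        rw [this]; simp
      have h4 := hcast _ h3
      have h5 : (C - 2) * (C + 2) = 0 := by linarith
      rcases mul_eq_zero.1 h5 with h6 | h6
      · left
        have h7 : C = 2 := by omega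
        rw [h7] at h1
        have h8 : (2 : ℤ) • ((d : R) - 1) = 0 := by
          rw [smul_sub, zsmul_eq_mul, zsmul_eq_mul]
          push_cast at h1 ⊢
          rw [h1]; simp
        rcases hR _ _ h8 with h9 | h9
        · exact absurd h9 (by norm_num)
        · exact Units.ext (by simpa using sub_eq_zero.1 h9)
      · right
        have h7 : C = -2 := by omega
        rw [h7] at h1
        have h8 : (2 : ℤ) • ((d : R) + 1) = 0 := by
          rw [smul_add, zsmul_eq_mul, zsmul_eq_mul]
          push_cast at h1 ⊢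
          rw [h1]; simp
        rcases hR _ _ h8 with h9 | h9
        · exact absurd h9 (by norm_num)
        · exact Units.ext (by simpa using eq_neg_of_add_eq_zero_left h9)
    exact ⟨fin _ _ k1 k1', fin _ _ k2 k2'⟩
  intro i j
  by_cases h1 : i ≠ c1 ∧ i ≠ c2
  · exact (hpm i j h1.1 h1.2).1
  · by_cases h2 : j ≠ c1 ∧ j ≠ c2
    · exact (hpm j i h2.1 h2.2).2
    · have h1' : i = c1 ∨ i = c2 := by tauto
      have h2' : j = c1 ∨ j = c2 := by tauto
      rcases h2' with rfl | rfl
      · exact (hspec i h1').1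
      · exact (hspec i h1').2

theorem not_propF_of_torsion_free (hR : ∀ (m : ℤ) (x : R), m • x = 0 → m = 0 ∨ x = 0)
    (N : Subgroup Rˣ) : ¬ PropF R N := by
  intro h
  rcases subsingleton_or_nontrivial R with hs | hs
  · apply char_not_dvd_four h
    rw [← ringChar.spec]
    exact Subsingleton.elim _ _
  obtain ⟨n, hn, H⟩ := propF_large h 2
  obtain ⟨K, ⟨⟨hG, -, -⟩, -⟩, -, -, ⟨K', hp, hN, hB⟩, hW⟩ :=
    H (n - 1) ⟨by omega, fun _ => by omega, fun _ => by omega⟩
  have h1 := torsion_free_core hR hn hG hp hN hB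
  have h2 : HasForm K n := ⟨K', hp, hN, fun i j _ => ⟨h1 i j, h1 j i⟩⟩
  have := hW n le_rfl h2
  omega

end Necessary


/-- **Answer to Q1 and classification.**  Property (F) holds for some ring, already for a field
with five elements and its unit group.  More precisely, let `R` be a ring with unity that has
positive characteristic or is torsion-free as an abelian group, and let `N ≤ Rˣ`.  Then `(R, N)`
has property (F) if and only if `char R ∉ {0, 1, 2, 4}`, `-1 ∈ N` and `N ⊄ {1, -1}`. -/
theorem result :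
    PropF (ZMod 5) ⊤ ∧
    ∀ (R : Type u) [Ring R] (N : Subgroup Rˣ),
      (ringChar R ≠ 0 ∨ ∀ (m : ℤ) (x : R), m • x = 0 → m = 0 ∨ x = 0) →
      (PropF R N ↔
        (ringChar R ≠ 0 ∧ ¬ ringChar R ∣ 4 ∧ (-1 : Rˣ) ∈ N ∧ ∃ a ∈ N, a ≠ 1 ∧ a ≠ -1)) := by
  constructor
  · have h5 : ringChar (ZMod 5) = 5 := ZMod.ringChar_zmod_n 5
    refine propF_of ⊤ (by rw [h5]; norm_num) (by rw [h5]; norm_num) trivial
      (Units.mkOfMulEqOne (2 : ZMod 5) 3 (by decide)) trivial ?_ ?_
    · intro h
      have := congrArg Units.val h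
      exact absurd this (by decide)
    · intro h
      have := congrArg Units.val h
      exact absurd this (by decide)
  · intro R _ N hR
    constructor
    · intro h
      refine ⟨?_, char_not_dvd_four h, neg_one_mem h, exists_other h⟩
      rcases hR with hR | hR
      · exact hR
      · exact absurd h (not_propF_of_torsion_free hR N)
    · rintro ⟨h0, h4, hm, a, ha, ha1, ha2⟩
      exact propF_of N h0 h4 hm a ha ha1 ha2

end Pool.Agent.Results.MP_522cd8_co.WidthClassification
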